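import Mathlib
import Pool.Agent.R566.CV.Kum

/-!
# Smoothability defects of powers of covers

Let `S` be a finite free algebra of rank `m` over a polynomial ring `k[σ]` (any set `σ` of
variables) whose discriminant is not zero: `Spec S` is a finite flat cover of degree `m` of an
affine space which is étale over a nonempty open subset. For a morphism from a finite scheme `Γ`
to the affine space let `Γ'` be the pull-back of the cover. Then `deg Γ' = m * deg Γ` and
`δ(Γ'^n) ≤ m^n * δ(Γ^n)` for all `n`. Hence Q1 for `Γ` implies Q1 for all such covers `Γ'` of `Γ`,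
and for every `Γ` and every `ε > 0` the limit of Q1 is `0` for `ε` and all covers of `Γ` of
sufficiently large degree. The same holds for the covers `Spec A[X]/(f)`, `f` monic, for towers of
such covers, and for the preimages of closed subschemes of affine space under the maps
`(y_1, …, y_N) ↦ (y_1^{e_1}, …, y_N^{e_N})`, in every characteristic.
-/

set_option autoImplicit false

namespace Pool.Agent.Results.MP_44217d_ag.Covers

open Pool.Agent.H826R3.SM Pool.Agent.TH671.DU Filter Topology TensorProduct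

/-- `S` is a free module of rank `m` over the polynomial ring `k[σ]` and its discriminant (the
determinant of the matrix of the traces of the products of the elements of a basis) is not the
zero polynomial. -/
def IsCover (k σ S : Type) [Field k] [CommRing S] [Algebra (MvPolynomial σ k) S] (m : ℕ) : Prop :=
  ∃ b : Module.Basis (Fin m) (MvPolynomial σ k) S, Algebra.discr (MvPolynomial σ k) b ≠ 0

/-- The limit statement of Q1 for `Γ = Spec A` and a fixed `ε`: the ratio
`δ(Γ^n) / (deg Γ)^((1+ε)n)` tends to `0`. -/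
def LimitAt (k : Type) [Field k] (A : Type) [CommRing A] [Algebra k A] (ε : ℝ) : Prop :=
  Tendsto (fun n : ℕ => (defect k (Pow k A n) : ℝ) /
    (Module.finrank k A : ℝ) ^ ((1 + ε) * (n : ℝ))) atTop (𝓝 0)

/-- `Γ' = Spec B` satisfies, with respect to `Γ = Spec A` and the number `m`: `B` is finite, its
degree is `m * deg Γ`, `δ(Γ'^n) ≤ m^n * δ(Γ^n)` for all `n`, and Q1 for `Γ` implies Q1 for `Γ'`. -/
def Good (k A B : Type) [Field k] [CommRing A] [Algebra k A] [CommRing B] [Algebra k B]
    (m : ℕ) : Prop :=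
  Module.Finite k B ∧ Module.finrank k B = m * Module.finrank k A ∧
    (∀ n : ℕ, defect k (Pow k B n) ≤ m ^ n * defect k (Pow k A n)) ∧ (QOne k A → QOne k B)

/-- The subalgebra `A[y 0, …, y (i - 1)]` of `B`, for an algebra map `g : A → B`. -/
def sub {k A B : Type} [Field k] [CommRing A] [Algebra k A] [CommRing B] [Algebra k B]
    (g : A →ₐ[k] B) {N : ℕ} (y : Fin N → B) (i : ℕ) : Subalgebra k B :=
  Algebra.adjoin k (Set.range g ∪ {z | ∃ j : Fin N, (j : ℕ) < i ∧ z = y j})

/-- For an ideal `I` of `k[x_1, …, x_N]`: the coordinate ring of the preimage of `V(I)` under the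
map `(y_1, …, y_N) ↦ (y_1^{e_1}, …, y_N^{e_N})`. -/
abbrev Preimage (k : Type) [Field k] {N : ℕ} (e : Fin N → ℕ)
    (I : Ideal (MvPolynomial (Fin N) k)) : Type :=
  MvPolynomial (Fin N) k ⧸
    I.map (MvPolynomial.aeval (R := k) fun i => (MvPolynomial.X i : MvPolynomial (Fin N) k) ^ e i)

/-- (1) `A ⊗ S` is the coordinate ring of the pull-back `Γ'` of the cover `Spec S` of affine space
under the morphism `Γ → Spec k[σ]` given by the `k[σ]`-algebra structure of `A`: it is finite of
degree `m * deg Γ`, `δ(Γ'^n) ≤ m^n * δ(Γ^n)` for all `n`, and Q1 for `Γ` implies Q1 for `Γ'`. For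
every closed subscheme `Γ''` of `Γ'` (given by `A ⊗ S → B`) and all `n`,
`(deg Γ'')^n + δ(Γ''^n) ≤ m^n * ((deg Γ)^n + δ(Γ^n))`. -/
def PullBacks (k : Type) [Field k] : Prop :=
  ∀ (σ S : Type) [CommRing S] [Algebra (MvPolynomial σ k) S] (m : ℕ), 1 ≤ m → IsCover k σ S m →
    ∀ (A : Type) [CommRing A] [Algebra k A] [Module.Finite k A] [Nontrivial A]
      [Algebra (MvPolynomial σ k) A] [IsScalarTower k (MvPolynomial σ k) A],
      Good k A (A ⊗[MvPolynomial σ k] S) m ∧
      ∀ (B : Type) [CommRing B] [Algebra k B] (f : (A ⊗[MvPolynomial σ k] S) →ₐ[k] B),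
        Function.Surjective f → ∀ n : ℕ, Module.finrank k B ^ n + defect k (Pow k B n) ≤
          m ^ n * (Module.finrank k A ^ n + defect k (Pow k A n))

/-- (3) Towers: if `B` is generated over `A` by `y 0, …, y (N - 1)` and `y i` is a zero of a monic
polynomial of degree `m i` over `A[y 0, …, y (i - 1)]` then
`(deg B)^n + δ((Spec B)^n) ≤ M^n * ((deg A)^n + δ(Γ^n))`, `M = ∏ m i`, and if moreover
`deg B ≥ M * deg A`, `M ≥ 1`, then Q1 for `Spec A` implies Q1 for `Spec B`. -/
def Towers (k : Type) [Field k] : Prop :=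
  ∀ (A B : Type) [CommRing A] [Algebra k A] [Module.Finite k A] [Nontrivial A]
    [CommRing B] [Algebra k B] [Module.Finite k B] (g : A →ₐ[k] B) (N : ℕ) (y : Fin N → B)
    (m : Fin N → ℕ), sub g y N = ⊤ →
    (∀ i : Fin N, ∃ f : Polynomial (sub g y i), f.Monic ∧ f.natDegree = m i ∧
      f.aeval (y i) = 0) →
    (∀ n : ℕ, Module.finrank k B ^ n + defect k (Pow k B n) ≤
      (∏ i, m i) ^ n * (Module.finrank k A ^ n + defect k (Pow k A n))) ∧
    (1 ≤ ∏ i, m i → (∏ i, m i) * Module.finrank k A ≤ Module.finrank k B →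
      QOne k A → QOne k B)

/-- (4) If `Γ ⊆ 𝔸^N` is defined by the ideal `I`, `e i ≥ 1`, then the assertions of (1) on `Γ'` hold
for the preimage `Γ'` of `Γ` under `(y_1, …, y_N) ↦ (y_1^{e_1}, …, y_N^{e_N})`, `m = ∏ e i`. -/
def Preimages (k : Type) [Field k] : Prop :=
  ∀ (N : ℕ) (e : Fin N → ℕ), (∀ i, 1 ≤ e i) → ∀ (I : Ideal (MvPolynomial (Fin N) k))
    [Module.Finite k (MvPolynomial (Fin N) k ⧸ I)] [Nontrivial (MvPolynomial (Fin N) k ⧸ I)],
    Good k (MvPolynomial (Fin N) k ⧸ I) (Preimage k e I) (∏ i, e i)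

/-- `k` is an algebraically closed field of any characteristic, `A`, `B` are finite-dimensional
commutative `k`-algebras, `A` is not zero, `Γ = Spec A`, `defect k A = δ(Γ)`, `Pow k A n` is the
coordinate ring of `Γ^n`, `QOne k A` is Q1 for `Γ`. Parts (1), (3), (4) are the definitions above.
(2) The assertions of (1) on `Γ'` hold for `Γ' = Spec A[X]/(f)`, `f` monic of degree `m ≥ 1`.
(5) For every `Γ` and `ε > 0` there is an `m₀` such that the limit of Q1 for `ε` is `0` for all
covers of degree `m ≥ m₀` of `Γ` as in (1), (2), (4), i.e. for all `Γ' = Spec B` with `B` finite,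
`deg Γ' = m * deg Γ`, `δ(Γ'^n) ≤ m^n * δ(Γ^n)` for all `n`, and Q1 for `Γ'` if Q1 for `Γ`. -/
theorem result (k : Type) [Field k] [IsAlgClosed k] :
    PullBacks k ∧
    (∀ (A : Type) [CommRing A] [Algebra k A] [Module.Finite k A] [Nontrivial A]
      (f : Polynomial A), f.Monic → 1 ≤ f.natDegree → Good k A (AdjoinRoot f) f.natDegree) ∧
    Towers k ∧ Preimages k ∧
    (∀ (A : Type) [CommRing A] [Algebra k A] [Module.Finite k A] [Nontrivial A] (ε : ℝ), 0 < ε →
      ∃ m₀ : ℕ, ∀ m : ℕ, m₀ ≤ m → ∀ (B : Type) [CommRing B] [Algebra k B],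
        Good k A B m → LimitAt k B ε) := by
  refine ⟨?_, ?_, ?_, ?_, ?_⟩
  · intro σ S _ _ m hm hS A _ _ _ _ _ _
    obtain ⟨b, hb⟩ := hS
    obtain ⟨hfin, hd⟩ := Pool.Agent.R566.CV.finite_pullback (k := k) (A := A) b
    have h : ∀ n, mdeg k (Pow k (A ⊗[MvPolynomial σ k] S) n) ≤ m ^ n * mdeg k (Pow k A n) :=
      fun n => Pool.Agent.R566.CV.mdeg_pullback b hb (AlgHom.id k _) Function.surjective_id n
    refine ⟨⟨hfin, hd, Pool.Agent.R566.CV.defect_of_mdeg m hd h,
      Pool.Agent.R566.CV.qOne_of_mdeg m hm hd.ge h⟩, ?_⟩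
    intro B _ _ f hf n
    have hfinB : Module.Finite k B := Module.Finite.of_surjective f.toLinearMap hf
    exact Pool.Agent.R566.CV.total_of_mdeg m
      (fun n => Pool.Agent.R566.CV.mdeg_pullback b hb f hf n) n
  · intro A _ _ _ _ f hf hm
    obtain ⟨hfin, hd⟩ := Pool.Agent.R566.CV.finite_adjoin (k := k) f hf
    have h := Pool.Agent.R566.CV.mdeg_adjoin (k := k) f hf
    exact ⟨hfin, hd, Pool.Agent.R566.CV.defect_of_mdeg _ hd h,
      Pool.Agent.R566.CV.qOne_of_mdeg _ hm hd.ge h⟩
  · intro A B _ _ _ _ _ _ _ g N y m hgen hy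
    have h := Pool.Agent.R566.CV.mdeg_tower g y m hy hgen
    exact ⟨Pool.Agent.R566.CV.total_of_mdeg _ h,
      fun hM hd => Pool.Agent.R566.CV.qOne_of_mdeg _ hM hd h⟩
  · intro N e he I _ _
    have hfin : Module.Finite k (Preimage k e I) := Pool.Agent.R566.CV.finite_pre k e I he
    have hd : Module.finrank k (Preimage k e I) =
        (∏ i, e i) * Module.finrank k (MvPolynomial (Fin N) k ⧸ I) :=
      Pool.Agent.R566.CV.finrank_pre k e I he
    have h : ∀ n, mdeg k (Pow k (Preimage k e I) n) ≤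
        (∏ i, e i) ^ n * mdeg k (Pow k (MvPolynomial (Fin N) k ⧸ I) n) :=
      Pool.Agent.R566.CV.mdeg_pre k e I he
    have hpos : 0 < ∏ i, e i := Finset.prod_pos fun i _ => he i
    exact ⟨hfin, hd, Pool.Agent.R566.CV.defect_of_mdeg _ hd h,
      Pool.Agent.R566.CV.qOne_of_mdeg _ hpos hd.ge h⟩
  · intro A _ _ _ _ ε hε
    obtain ⟨m₀, hm₀, h⟩ := Pool.Agent.R566.CV.exists_large k A hε
    refine ⟨m₀, fun m hm B _ _ hB => ?_⟩
    obtain ⟨hfin, hd, hδ, -⟩ := hB
    refine Pool.Agent.R566.CV.lim_of_mdeg m (hm₀.trans hm) hd (fun n => ?_) (h m hm)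
    rw [← fadd k (Pow k A n), ← fadd k (Pow k B n), finrank_Pow', finrank_Pow', hd, mul_pow,
      mul_add]
    exact Nat.add_le_add_left (hδ n) _

end Pool.Agent.Results.MP_44217d_ag.Covers
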