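import Mathlib
import Pool.Agent.R566.DG.Gr
import Pool.Agent.R566.CV.Sub

/-!
# Smoothability defects of powers of degenerations

If a finite scheme `Γ₀` is a degeneration of a finite scheme `Γ` (the special fibre of a finite flat
family over `k[[t]]` whose generic fibre is isomorphic to the generic fibre of the constant family
with fibre `Γ`) then `δ(Γ₀^n) ≤ δ(Γ^n)` for all `n`. Hence Q1 for `Γ` implies Q1 for all
degenerations of `Γ`, and the growth rate does not increase under degeneration. In particular, for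
fixed `v` and `ε > 0` the limit of Q1 for `ε` is `0` for all degenerations of sufficiently large
degree of schemes with points of embedding dimension at most `v`. The spectra of the graded algebras
associated with finite filtrations of `A` are degenerations of `Spec A`.
-/

set_option autoImplicit false

namespace Pool.Agent.Results.MP_44217d_ag.Degenerations

open Pool.Agent.H826R3.SM Pool.Agent.TH671.DU Filter Topology TensorProduct PowerSeries

/-- The limit statement of Q1 for `Γ = Spec A` and a fixed `ε`: the ratio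
`δ(Γ^n) / (deg Γ)^((1+ε)n)` tends to `0`. -/
def LimitAt (k : Type) [Field k] (A : Type) [CommRing A] [Algebra k A] (ε : ℝ) : Prop :=
  Tendsto (fun n : ℕ => (defect k (Pow k A n) : ℝ) /
    (Module.finrank k A : ℝ) ^ ((1 + ε) * (n : ℝ))) atTop (𝓝 0)

/-- `Γ₀ = Spec A₀` is a degeneration of `Γ = Spec A`: there is a finite free `k[[t]]`-algebra `𝒜`
whose generic fibre `k((t)) ⊗ 𝒜` is isomorphic, over `k((t))`, to the generic fibre of the constant
family `k[[t]] ⊗ A`, and whose special fibre `𝒜 / t𝒜` is `A₀`: there is a surjective homomorphism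
`π : 𝒜 → A₀` with kernel `t𝒜` which extends `k[[t]] → k`, `t ↦ 0`. -/
def IsDegeneration (k : Type) [Field k] (A A₀ : Type) [CommRing A] [Algebra k A] [CommRing A₀]
    [Algebra k A₀] : Prop :=
  ∃ (𝒜 : Type) (_ : CommRing 𝒜) (_ : Algebra k⟦X⟧ 𝒜), Module.Finite k⟦X⟧ 𝒜 ∧
    Module.Free k⟦X⟧ 𝒜 ∧
    Nonempty ((LaurentSeries k ⊗[k⟦X⟧] 𝒜) ≃ₐ[LaurentSeries k]
      (LaurentSeries k ⊗[k⟦X⟧] (k⟦X⟧ ⊗[k] A))) ∧
    ∃ π : 𝒜 →+* A₀, Function.Surjective π ∧
      (∀ c : k⟦X⟧, π (algebraMap k⟦X⟧ 𝒜 c) = algebraMap k A₀ (PowerSeries.constantCoeff c)) ∧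
      ∀ x, π x = 0 → ∃ y, x = (PowerSeries.X : k⟦X⟧) • y

/-- (1) For a degeneration `Γ₀` of `Γ`: `deg Γ₀ = deg Γ`, `δ(Γ₀^n) ≤ δ(Γ^n)` for all `n`, the growth
rate of `Γ₀` is at most that of `Γ`, Q1 for `Γ` implies Q1 for `Γ₀`, and the limit of Q1 for `Γ` and
`ε` implies that for `Γ₀` and `ε`. For closed subschemes `Spec B` of `Γ₀` and all `n`,
`(deg B)^n + δ((Spec B)^n) ≤ (deg Γ)^n + δ(Γ^n)`. -/
def Monotone (k : Type) [Field k] : Prop :=
  ∀ (A A₀ : Type) [CommRing A] [Algebra k A] [Module.Finite k A] [Nontrivial A] [CommRing A₀]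
    [Algebra k A₀], IsDegeneration k A A₀ →
    Module.Finite k A₀ ∧ Module.finrank k A₀ = Module.finrank k A ∧
    (∀ n : ℕ, defect k (Pow k A₀ n) ≤ defect k (Pow k A n)) ∧ rate k A₀ ≤ rate k A ∧
    (QOne k A → QOne k A₀) ∧ (∀ ε : ℝ, LimitAt k A ε → LimitAt k A₀ ε) ∧
    ∀ (B : Type) [CommRing B] [Algebra k B] (f : A₀ →ₐ[k] B), Function.Surjective f →
      ∀ n : ℕ, Module.finrank k B ^ n + defect k (Pow k B n) ≤
        Module.finrank k A ^ n + defect k (Pow k A n)

/-- (2) If Q1 holds for `Γ` and `Γ'` then it holds for all degenerations of `Γ ⊔ Γ'` and of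
`Γ × Γ'`; in particular it holds for all degenerations of `Γ ⊔ (c points)`. -/
def SumsAndProducts (k : Type) [Field k] : Prop :=
  ∀ (A B : Type) [CommRing A] [Algebra k A] [Module.Finite k A] [Nontrivial A] [CommRing B]
    [Algebra k B] [Module.Finite k B] [Nontrivial B], QOne k A → QOne k B →
    ∀ (A₀ : Type) [CommRing A₀] [Algebra k A₀],
      (IsDegeneration k (A × B) A₀ ∨ IsDegeneration k (A ⊗[k] B) A₀ ∨
        ∃ c : ℕ, IsDegeneration k (A × (Fin c → k)) A₀) → QOne k A₀

/-- The embedding dimension of a local ring: the dimension of the cotangent space `𝔪 / 𝔪 ^ 2` over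
the residue field. -/
noncomputable def edim (B : Type) [CommRing B] [IsLocalRing B] : ℕ :=
  Module.finrank (IsLocalRing.ResidueField B) (IsLocalRing.CotangentSpace B)

/-- (3) Let `Γ₀` be a degeneration of a scheme `Γ = Spec A` all of whose points have embedding
dimension at most `v` (for example, `Γ₀` is the limit of disjoint unions of many small schemes; the
embedding dimensions of `Γ₀` are not bounded). Then
`(deg Γ₀)^n + δ(Γ₀^n) ≤ (v! * deg Γ₀)^n` for all `n`, and for every `ε > 0` the limit of Q1 for `Γ₀`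
and `ε` is `0` as soon as `deg Γ₀` is at least some `d₀` which depends only on `v` and `ε`. -/
def BoundedPoints (k : Type) [Field k] : Prop :=
  ∀ (v : ℕ) (ε : ℝ), 0 < ε → ∃ d₀ : ℕ, ∀ (A A₀ : Type) [CommRing A] [Algebra k A]
    [Module.Finite k A] [Nontrivial A] [CommRing A₀] [Algebra k A₀], IsDegeneration k A A₀ →
    (∀ p : PrimeSpectrum A, edim (Localization.AtPrime p.asIdeal) ≤ v) →
    (∀ n : ℕ, Module.finrank k A₀ ^ n + defect k (Pow k A₀ n) ≤
      (v.factorial * Module.finrank k A₀) ^ n) ∧
    (d₀ ≤ Module.finrank k A₀ → LimitAt k A₀ ε)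

/-- `A₀` is the graded algebra associated with a finite filtration of `A`, in adapted bases `b` of
`A` and `b₀` of `A₀` with integral levels `l i`: the product `b i * b j` has no components of level
smaller than `l i + l j`, and `b₀ i * b₀ j` has the components of `b i * b j` of level `l i + l j` and
no others; similarly for `1`, with the level `0`. -/
def IsAssociatedGraded (k : Type) [Field k] (A A₀ : Type) [CommRing A] [Algebra k A] [CommRing A₀]
    [Algebra k A₀] : Prop :=
  ∃ (d : ℕ) (b : Module.Basis (Fin d) k A) (b₀ : Module.Basis (Fin d) k A₀) (l : Fin d → ℤ),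
    (∀ i j m, (l m < l i + l j → b.repr (b i * b j) m = 0) ∧
      b₀.repr (b₀ i * b₀ j) m = if l m = l i + l j then b.repr (b i * b j) m else 0) ∧
    ∀ m, (l m < 0 → b.repr 1 m = 0) ∧ b₀.repr 1 m = if l m = 0 then b.repr 1 m else 0

/-- (4) If `A₀` is the graded algebra associated with a finite filtration of `A` then `Spec A₀` is a
degeneration of `Spec A` (so (1), (2), (3) apply). -/
def Graded (k : Type) [Field k] : Prop :=
  ∀ (A A₀ : Type) [CommRing A] [Algebra k A] [CommRing A₀] [Algebra k A₀],
    IsAssociatedGraded k A A₀ → IsDegeneration k A A₀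

/-- `k` is an algebraically closed field of any characteristic, `A`, `B`, `A₀` are
finite-dimensional commutative `k`-algebras, `Γ = Spec A`, `defect k A = δ(Γ)`, `Pow k A n` is the
coordinate ring of `Γ^n`, `QOne k A` is Q1 for `Γ`, and the growth rate `rate k A` is the infimum
over `n ≥ 1` of `((deg Γ)^n + δ(Γ^n))^(1/n)`. The four parts are the definitions above. -/
theorem result (k : Type) [Field k] [IsAlgClosed k] :
    Monotone k ∧ SumsAndProducts k ∧ BoundedPoints k ∧ Graded k := by
  have key : Monotone k := by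
    intro A A₀ _ _ _ _ _ _ h
    have h' : Pool.Agent.R566.DG.IsDeg k A A₀ := h
    obtain ⟨hfin, hd⟩ := h'.rank
    have hδ := h'.defect
    have hpos : 0 < Module.finrank k A := Module.finrank_pos
    have hnt : Nontrivial A₀ := Module.nontrivial_of_finrank_pos (R := k) (by rw [hd]; exact hpos)
    have hrate : rate k A₀ ≤ rate k A := by
      rw [rate_eq, rate_eq]
      exact Pool.Agent.R566.CV.irate_mono fun n => h'.mdeg n
    refine ⟨hfin, hd, hδ, hrate, ?_, ?_, ?_⟩
    · rw [qOne_iff_rate, qOne_iff_rate, hd]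
      intro hQ
      refine le_antisymm (hrate.trans hQ.le) ?_
      rw [← hd]
      exact finrank_le_rate A₀
    · intro ε hε
      refine squeeze_zero (fun n => by positivity) (fun n => ?_) hε
      rw [hd]
      refine div_le_div_of_nonneg_right ?_ (by positivity)
      exact_mod_cast hδ n
    · intro B _ _ f hf n
      have hfinB : Module.Finite k B := Module.Finite.of_surjective f.toLinearMap hf
      obtain ⟨D, hD⟩ := exists_fam (k := k) (Pow k A₀ n)
      have h1 : mdeg k (Pow k B n) ≤ mdeg k (Pow k A₀ n) :=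
        mdeg_le (Fam.of_pow (mdeg_spec hD) (fun i => (sg k B i).comp f) (by
          intro T hT
          apply pow_eq_top
          intro i x
          obtain ⟨y, rfl⟩ := hf x
          exact hT i y))
      have h2 := h1.trans (h'.mdeg n)
      rwa [← fadd k (Pow k B n), ← fadd k (Pow k A n), finrank_Pow', finrank_Pow'] at h2
  refine ⟨key, ?_, ?_, fun A A₀ _ _ _ _ h => Pool.Agent.R566.DG.IsGr.isDeg h⟩
  · intro A B _ _ _ _ _ _ _ _ hA hB A₀ _ _ h
    rcases h with h | h | ⟨c, h⟩
    · exact (key _ _ h).2.2.2.2.1 (qOne_prod A B hA hB)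
    · have hn : Nontrivial (A ⊗[k] B) := by
        have h1 : 0 < Module.finrank k (A ⊗[k] B) := by
          rw [Module.finrank_tensorProduct]
          exact Nat.mul_pos Module.finrank_pos Module.finrank_pos
        exact Module.nontrivial_of_finrank_pos h1
      refine (key _ _ h).2.2.2.2.1 ?_
      rw [qOne_iff_rate] at hA hB ⊢
      refine le_antisymm ?_ (finrank_le_rate _)
      refine (Pool.Agent.R836.Emb.rate_tensor_le A B).trans (le_of_eq ?_)
      rw [hA, hB, Module.finrank_tensorProduct]
      push_cast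
      rfl
    · exact (key _ _ h).2.2.2.2.1 ((qOne_add_points A c).mpr hA)
  · intro v ε hε
    have h1 : Tendsto (fun x : ℝ => x ^ ε) atTop atTop := tendsto_rpow_atTop hε
    have h2 : Tendsto (fun n : ℕ => (n : ℝ) ^ ε) atTop atTop :=
      h1.comp tendsto_natCast_atTop_atTop
    obtain ⟨d₀, hd₀⟩ := eventually_atTop.1 (h2.eventually_gt_atTop (v.factorial : ℝ))
    refine ⟨d₀, ?_⟩
    intro A A₀ _ _ _ _ _ _ h hv
    obtain ⟨hfin, hd, hδ, hrate, -⟩ := key A A₀ h
    have hpos : 0 < Module.finrank k A := Module.finrank_pos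
    have hnt : Nontrivial A₀ := Module.nontrivial_of_finrank_pos (R := k) (by rw [hd]; exact hpos)
    have hL : Pool.Agent.R836.Emb.lechSum k A ≤ v.factorial * Module.finrank k A :=
      Pool.Agent.R836.Emb.lechSum_le k A v hv
    refine ⟨fun n => ?_, fun hdeg => ?_⟩
    · have h3 := Pool.Agent.R836.Emb.pow_bound k A n
      have h4 := Nat.pow_le_pow_left hL n
      rw [hd]
      exact (Nat.add_le_add_left (hδ n) _).trans (h3.trans h4)
    · have h3 := hd₀ _ hdeg
      have h5 : (0 : ℝ) < (Module.finrank k A₀ : ℝ) := by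
        rw [hd]
        exact_mod_cast hpos
      refine Pool.Agent.R836.Emb.lim_of_rate A₀ (lt_of_le_of_lt hrate ?_)
      refine lt_of_le_of_lt (Pool.Agent.R836.Emb.rate_le_lechSum k A) ?_
      have h6 : (Pool.Agent.R836.Emb.lechSum k A : ℝ) ≤
          (v.factorial : ℝ) * (Module.finrank k A₀ : ℝ) := by
        rw [hd]
        exact_mod_cast hL
      refine lt_of_le_of_lt h6 ?_
      rw [add_comm, Real.rpow_add h5, Real.rpow_one]
      exact mul_lt_mul_of_pos_right h3 h5

end Pool.Agent.Results.MP_44217d_ag.Degenerations
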