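import Mathlib
import Pool.Agent.R836.Emb

/-!
# Smoothability defects of powers and embedding dimensions

For a finite scheme `Γ` let `L(Γ)` be the sum over the points `p` of `Γ` of `(v_p)! * l_p`, where
`v_p` is the embedding dimension and `l_p` the length of the local ring of `Γ` at `p`. Then
`(deg Γ)^n + δ(Γ^n) ≤ L(Γ)^n` for all `n`. Hence the limit of Q1 is `0` for every `ε` such that
`L(Γ) < (deg Γ)^(1+ε)`. In particular, for fixed `v` and `ε > 0`, it is `0` for all schemes of
embedding dimension at most `v` and sufficiently large degree, and for all schemes obtained from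
these by products (so that the embedding dimension is not bounded any more) and disjoint unions.
-/

set_option autoImplicit false

namespace Pool.Agent.Results.MP_44217d_ag.EmbeddingDimension

open Pool.Agent.H826R3.SM Pool.Agent.TH671.DU Filter Topology TensorProduct

/-- The embedding dimension of a local ring: the dimension of the cotangent space `𝔪 / 𝔪 ^ 2` over
the residue field. -/
noncomputable def edim (B : Type) [CommRing B] [IsLocalRing B] : ℕ :=
  Module.finrank (IsLocalRing.ResidueField B) (IsLocalRing.CotangentSpace B)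

/-- `L(Γ)` for `Γ = Spec A`: the sum over the points of `Γ` of `v! * l`, where `v` is the embedding
dimension and `l` the length of the local ring at the point. -/
noncomputable def lechSum (k A : Type) [Field k] [CommRing A] [Algebra k A] : ℕ :=
  ∑ᶠ p : PrimeSpectrum A, (edim (Localization.AtPrime p.asIdeal)).factorial *
    Module.finrank k (Localization.AtPrime p.asIdeal)

/-- The limit statement of Q1 for `Γ = Spec A` and a fixed `ε`: the ratio
`δ(Γ^n) / (deg Γ)^((1+ε)n)` tends to `0`. -/
def LimitAt (k : Type) [Field k] (A : Type) [CommRing A] [Algebra k A] (ε : ℝ) : Prop :=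
  Tendsto (fun n : ℕ => (defect k (Pow k A n) : ℝ) /
    (Module.finrank k A : ℝ) ^ ((1 + ε) * (n : ℝ))) atTop (𝓝 0)

/-- The growth rate `rate k A` (the infimum over `n ≥ 1` of `((deg Γ)^n + δ(Γ^n))^(1/n)`) is
smaller than `(deg Γ)^(1+ε)`. -/
def Small (k : Type) [Field k] (A : Type) [CommRing A] [Algebra k A] (ε : ℝ) : Prop :=
  rate k A < (Module.finrank k A : ℝ) ^ (1 + ε)

/-- Let `k` be an algebraically closed field (of any characteristic); `A`, `B` are
finite-dimensional commutative `k`-algebras, `Γ = Spec A`, `defect k A = δ(Γ)`, and `Pow k A n` is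
the coordinate ring of `Γ^n`.
(1) `deg Γ + δ(Γ) ≤ L(Γ)` and `(deg Γ)^n + δ(Γ^n) ≤ L(Γ)^n` for all `n`; and
`L(Γ) ≤ v! * deg Γ` if all points of `Γ` have embedding dimension at most `v`.
(2) For nonempty `Γ`, `deg Γ ≤ rate Γ ≤ L(Γ)`; if `L(Γ) < (deg Γ)^(1+ε)` then the growth rate of
`Γ` is smaller than `(deg Γ)^(1+ε)`.
(3) If the growth rate of `Γ` is smaller than `(deg Γ)^(1+ε)` then the limit of Q1 for `Γ` and `ε`
is `0`.
(4) For every `v` and `ε > 0` there is a `d₀` such that for every `Γ` of degree at least `d₀` all of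
whose points have embedding dimension at most `v` the growth rate is smaller than `(deg Γ)^(1+ε)`.
(5) The class of (3) is, for every `ε ≥ 0`, closed under disjoint unions and products. -/
theorem result (k : Type) [Field k] [IsAlgClosed k] :
    (∀ (A : Type) [CommRing A] [Algebra k A] [Module.Finite k A],
      Module.finrank k A + defect k A ≤ lechSum k A ∧
      (∀ n : ℕ, Module.finrank k A ^ n + defect k (Pow k A n) ≤ lechSum k A ^ n) ∧
      ∀ v : ℕ, (∀ p : PrimeSpectrum A, edim (Localization.AtPrime p.asIdeal) ≤ v) →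
        lechSum k A ≤ v.factorial * Module.finrank k A) ∧
    (∀ (A : Type) [CommRing A] [Algebra k A] [Module.Finite k A] [Nontrivial A],
      (Module.finrank k A : ℝ) ≤ rate k A ∧ rate k A ≤ lechSum k A ∧
      ∀ ε : ℝ, (lechSum k A : ℝ) < (Module.finrank k A : ℝ) ^ (1 + ε) → Small k A ε) ∧
    (∀ (A : Type) [CommRing A] [Algebra k A] [Module.Finite k A] [Nontrivial A] (ε : ℝ),
      Small k A ε → LimitAt k A ε) ∧
    (∀ (v : ℕ) (ε : ℝ), 0 < ε → ∃ d₀ : ℕ,
      ∀ (A : Type) [CommRing A] [Algebra k A] [Module.Finite k A] [Nontrivial A],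
        (∀ p : PrimeSpectrum A, edim (Localization.AtPrime p.asIdeal) ≤ v) →
          d₀ ≤ Module.finrank k A → Small k A ε) ∧
    (∀ (A B : Type) [CommRing A] [Algebra k A] [Module.Finite k A] [Nontrivial A]
      [CommRing B] [Algebra k B] [Module.Finite k B] [Nontrivial B] (ε : ℝ), 0 ≤ ε →
      Small k A ε → Small k B ε → Small k (A × B) ε ∧ Small k (A ⊗[k] B) ε) := by
  have hL : ∀ (A : Type) [CommRing A] [Algebra k A],
      lechSum k A = Pool.Agent.R836.Emb.lechSum k A := fun A _ _ => rfl
  refine ⟨?_, ?_, ?_, ?_, ?_⟩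
  · intro A _ _ _
    refine ⟨?_, fun n => ?_, fun v hv => ?_⟩
    · rw [hL]
      exact Pool.Agent.Y234.EM.add_defect_le (Pool.Agent.R836.Emb.fam_lechSum k A)
    · rw [hL]
      exact Pool.Agent.R836.Emb.pow_bound k A n
    · rw [hL]
      exact Pool.Agent.R836.Emb.lechSum_le k A v hv
  · intro A _ _ _ _
    refine ⟨finrank_le_rate A, ?_, fun ε h => ?_⟩
    · rw [hL]
      exact Pool.Agent.R836.Emb.rate_le_lechSum k A
    · rw [hL] at h
      exact lt_of_le_of_lt (Pool.Agent.R836.Emb.rate_le_lechSum k A) h
  · intro A _ _ _ _ ε h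
    exact Pool.Agent.R836.Emb.lim_of_rate A h
  · intro v ε hε
    have h1 : Tendsto (fun x : ℝ => x ^ ε) atTop atTop := tendsto_rpow_atTop hε
    have h2 : Tendsto (fun n : ℕ => (n : ℝ) ^ ε) atTop atTop :=
      h1.comp tendsto_natCast_atTop_atTop
    obtain ⟨d₀, hd₀⟩ := eventually_atTop.1 (h2.eventually_gt_atTop (v.factorial : ℝ))
    refine ⟨d₀, ?_⟩
    intro A _ _ _ _ hv hd
    have h3 := hd₀ _ hd
    have h4 : 0 < Module.finrank k A := Module.finrank_pos
    have h5 : (0 : ℝ) < (Module.finrank k A : ℝ) := by exact_mod_cast h4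
    have h6 : (lechSum k A : ℝ) ≤ (v.factorial : ℝ) * (Module.finrank k A : ℝ) := by
      have := Pool.Agent.R836.Emb.lechSum_le k A v hv
      rw [hL]
      exact_mod_cast this
    refine lt_of_le_of_lt (Pool.Agent.R836.Emb.rate_le_lechSum k A) ?_
    rw [← hL]
    refine lt_of_le_of_lt h6 ?_
    rw [add_comm, Real.rpow_add h5, Real.rpow_one]
    exact mul_lt_mul_of_pos_right h3 h5
  · intro A B _ _ _ _ _ _ _ _ ε hε hA hB
    have hA1 := one_le_rate (k := k) A
    have hB1 := one_le_rate (k := k) B
    refine ⟨?_, ?_⟩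
    · refine lt_of_le_of_lt (rate_prod_le A B) ?_
      refine lt_of_lt_of_le (add_lt_add hA hB) ?_
      rw [Module.finrank_prod]
      push_cast
      exact Real.add_rpow_le_rpow_add (by positivity) (by positivity) (by linarith)
    · refine lt_of_le_of_lt (Pool.Agent.R836.Emb.rate_tensor_le A B) ?_
      rw [Small] at hA hB
      have h1 : (Module.finrank k (A ⊗[k] B) : ℝ) ^ (1 + ε) =
          (Module.finrank k A : ℝ) ^ (1 + ε) * (Module.finrank k B : ℝ) ^ (1 + ε) := by
        rw [Module.finrank_tensorProduct]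
        push_cast
        rw [Real.mul_rpow (by positivity) (by positivity)]
      rw [h1]
      exact mul_lt_mul'' hA hB (by linarith) (by linarith)

end Pool.Agent.Results.MP_44217d_ag.EmbeddingDimension
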