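import Mathlib
import Pool.Agent.R566.CV.Few

/-!
# Smoothability defects of powers: images, unions, and inverse systems with few terms

If the ring of a finite scheme `Γ` is a quotient of a subalgebra of the ring of `Γ'` (for example if
there is a schematically dominant morphism `Γ' → Γ`) then
`(deg Γ)^n + δ(Γ^n) ≤ (deg Γ')^n + δ(Γ'^n)` for all `n`. Hence the growth rate of a (not disjoint)
union of closed subschemes is at most the sum of their growth rates. A union of `r` schemes which
satisfy Q1 satisfies the limit statement of Q1 for every `ε` with `r < (deg Γ)^ε`. For finite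
schemes in an affine space of any dimension whose inverse system is generated by polynomials with
`R` terms altogether, the growth rate is at most `2 * R ^ 2 * deg Γ`.
-/

set_option autoImplicit false

namespace Pool.Agent.Results.MP_44217d_ag.Unions

open Pool.Agent.H826R3.SM Pool.Agent.TH671.DU Filter Topology MvPolynomial

/-- The limit statement of Q1 for `Γ = Spec A` and a fixed `ε`: the ratio
`δ(Γ^n) / (deg Γ)^((1+ε)n)` tends to `0`. -/
def LimitAt (k : Type) [Field k] (A : Type) [CommRing A] [Algebra k A] (ε : ℝ) : Prop :=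
  Tendsto (fun n : ℕ => (defect k (Pow k A n) : ℝ) /
    (Module.finrank k A : ℝ) ^ ((1 + ε) * (n : ℝ))) atTop (𝓝 0)

/-- (1) If `A` is a quotient of a subalgebra of `B` (for example a subalgebra of `B`: then
`Γ' = Spec B → Γ = Spec A` is schematically dominant), then
`(deg Γ)^n + δ(Γ^n) ≤ (deg Γ')^n + δ(Γ'^n)` for all `n`, the growth rate of `Γ` is at most that of
`Γ'`, and if Q1 holds for `Γ'` then the limit of Q1 for `Γ` and `ε` is `0` whenever
`deg Γ' < (deg Γ)^(1+ε)`. -/
def Subquotients (k : Type) [Field k] : Prop :=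
  ∀ (A B : Type) [CommRing A] [Algebra k A] [Nontrivial A] [CommRing B] [Algebra k B]
    [Module.Finite k B] (S : Subalgebra k B) (p : S →ₐ[k] A), Function.Surjective p →
    (∀ n : ℕ, Module.finrank k A ^ n + defect k (Pow k A n) ≤
      Module.finrank k B ^ n + defect k (Pow k B n)) ∧
    rate k A ≤ rate k B ∧
    (QOne k B → ∀ ε : ℝ, (Module.finrank k B : ℝ) < (Module.finrank k A : ℝ) ^ (1 + ε) →
      LimitAt k A ε)

/-- (2) Let `Γ` be the union of closed subschemes `Γ_1, …, Γ_r` (not empty; they may meet): the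
intersection of their ideals `I i` is `0`. Then
`(deg Γ)^n + δ(Γ^n) ≤ (∑ (deg Γ_i + δ(Γ_i)))^n` for all `n`, and the growth rate of `Γ` is at most
the sum of those of the `Γ_i`. If Q1 holds for all `Γ_i`, then the growth rate of `Γ` is at most
`∑ deg Γ_i`, and the limit of Q1 for `Γ` and `ε` is `0` if `∑ deg Γ_i < (deg Γ)^(1+ε)`, in
particular if `r < (deg Γ)^ε`. -/
def UnionBounds (k : Type) [Field k] : Prop :=
  ∀ (A : Type) [CommRing A] [Algebra k A] [Module.Finite k A] [Nontrivial A] (r : ℕ)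
    (I : Fin r → Ideal A), ⨅ i, I i = ⊥ → (∀ i, I i ≠ ⊤) →
    (∀ n : ℕ, Module.finrank k A ^ n + defect k (Pow k A n) ≤
      (∑ i, (Module.finrank k (A ⧸ I i) + defect k (A ⧸ I i))) ^ n) ∧
    rate k A ≤ ∑ i, rate k (A ⧸ I i) ∧
    ((∀ i, QOne k (A ⧸ I i)) →
      rate k A ≤ ∑ i, (Module.finrank k (A ⧸ I i) : ℝ) ∧
      ∀ ε : ℝ, (∑ i, (Module.finrank k (A ⧸ I i) : ℝ) < (Module.finrank k A : ℝ) ^ (1 + ε) ∨
        (r : ℝ) < (Module.finrank k A : ℝ) ^ ε) → LimitAt k A ε)

/-- (3) For all `r` and `0 ≤ ε' < ε` there is a `d₀` such that the limit of Q1 for `ε` is `0` for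
all schemes of degree at least `d₀` which are unions of `r` closed subschemes whose growth rates are
at most the power `1 + ε'` of their degrees. -/
def Uniform (k : Type) [Field k] : Prop :=
  ∀ (r : ℕ) (ε' ε : ℝ), 0 ≤ ε' → ε' < ε → ∃ d₀ : ℕ,
    ∀ (A : Type) [CommRing A] [Algebra k A] [Module.Finite k A] [Nontrivial A]
      (I : Fin r → Ideal A), ⨅ i, I i = ⊥ → (∀ i, I i ≠ ⊤) →
      (∀ i, rate k (A ⧸ I i) ≤ (Module.finrank k (A ⧸ I i) : ℝ) ^ (1 + ε')) →
      d₀ ≤ Module.finrank k A → LimitAt k A ε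

/-- The exponents of the terms of the element `Φ` of the inverse system (the dual of the polynomial
ring `k[x_1, …, x_N]`, a power series ring with divided powers). -/
def terms {k : Type} [Field k] {N : ℕ} (Φ : MvPolynomial (Fin N) k →ₗ[k] k) :
    Set (Fin N →₀ ℕ) :=
  {u | Φ (monomial u 1) ≠ 0}

/-- The coordinate ring of the finite subscheme of affine `N`-space whose inverse system is generated
by `Φ 0, …, Φ (l - 1)`. -/
abbrev Sys {k : Type} [Field k] {N l : ℕ} (Φ : Fin l → (MvPolynomial (Fin N) k →ₗ[k] k)) : Type :=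
  MvPolynomial (Fin N) k ⧸ ⨅ i, annOf (Φ i)

/-- (4) Let the inverse system of `Γ ⊆ 𝔸^N` be generated by `Φ 0, …, Φ (l - 1)` with finitely many
terms, `R` altogether, `1 ≤ R`, and let `V` be the sum of the numbers `∏ (u_i + 1)` over all terms
`x^u` of all `Φ i`. Then `Γ` is finite and not empty, `V ≤ 2 * R^2 * deg Γ`,
`(deg Γ)^n + δ(Γ^n) ≤ V^n ≤ (2 * R^2 * deg Γ)^n` for all `n`, the growth rate of `Γ` is at most
`2 * R^2 * deg Γ` and the limit of Q1 for `ε` is `0` if `2 * R^2 < (deg Γ)^ε`. -/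
def FewTerms (k : Type) [Field k] : Prop :=
  ∀ (N l : ℕ) (Φ : Fin l → (MvPolynomial (Fin N) k →ₗ[k] k)) (R : ℕ),
    (∀ i, (terms (Φ i)).Finite) → ∑ i, (terms (Φ i)).ncard = R → 1 ≤ R →
    Module.Finite k (Sys Φ) ∧ Nontrivial (Sys Φ) ∧
    (∃ V : ℕ, V = ∑ i, ∑ᶠ u ∈ terms (Φ i), ∏ j, (u j + 1) ∧
      V ≤ 2 * R ^ 2 * Module.finrank k (Sys Φ) ∧
      ∀ n : ℕ, Module.finrank k (Sys Φ) ^ n + defect k (Pow k (Sys Φ) n) ≤ V ^ n) ∧
    rate k (Sys Φ) ≤ 2 * (R : ℝ) ^ 2 * Module.finrank k (Sys Φ) ∧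
    ∀ ε : ℝ, 2 * (R : ℝ) ^ 2 < (Module.finrank k (Sys Φ) : ℝ) ^ ε → LimitAt k (Sys Φ) ε

/-- `k` is an algebraically closed field of any characteristic, `A`, `B` are finite-dimensional
commutative `k`-algebras, `Γ = Spec A`, `defect k A = δ(Γ)`, `Pow k A n` is the coordinate ring of
`Γ^n`, `QOne k A` is Q1 for `Γ`, and the growth rate `rate k A` is the infimum over `n ≥ 1` of
`((deg Γ)^n + δ(Γ^n))^(1/n)`. The four parts are the definitions above. -/
theorem result (k : Type) [Field k] [IsAlgClosed k] :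
    Subquotients k ∧ UnionBounds k ∧ Uniform k ∧ FewTerms k := by
  refine ⟨?_, ?_, ?_, ?_⟩
  · intro A B _ _ _ _ _ _ S p hp
    have hfin := Pool.Agent.R566.CV.finite_sub S p hp
    have hnt : Nontrivial B := by
      have h1 : Nontrivial S := p.toRingHom.domain_nontrivial
      exact Function.Injective.nontrivial (f := (Subtype.val : S → B)) Subtype.val_injective
    have hr := Pool.Agent.R566.CV.rate_sub S p hp
    refine ⟨Pool.Agent.R566.CV.total_sub S p hp, hr, fun hQ ε hε => ?_⟩
    refine Pool.Agent.R836.Emb.lim_of_rate A (lt_of_le_of_lt hr ?_)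
    rw [(qOne_iff_rate B).mp hQ]
    exact hε
  · intro A _ _ _ _ r I hI hne
    refine ⟨Pool.Agent.R566.CV.total_union I hI, Pool.Agent.R566.CV.rate_union I hI hne, ?_⟩
    intro hQ
    have h1 := Pool.Agent.R566.CV.rate_union_qOne I hI hne hQ
    refine ⟨h1, fun ε hε => ?_⟩
    refine Pool.Agent.R836.Emb.lim_of_rate A (lt_of_le_of_lt h1 ?_)
    rcases hε with hε | hε
    · exact hε
    · have hd : 0 < Module.finrank k A := Module.finrank_pos
      have hd' : (0 : ℝ) < Module.finrank k A := by exact_mod_cast hd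
      have h2 : ∑ i, (Module.finrank k (A ⧸ I i) : ℝ) ≤ r * Module.finrank k A := by
        calc ∑ i, (Module.finrank k (A ⧸ I i) : ℝ) ≤ ∑ _i : Fin r, (Module.finrank k A : ℝ) :=
              Finset.sum_le_sum fun i _ => by
                exact_mod_cast LinearMap.finrank_le_finrank_of_surjective
                  (f := (Ideal.Quotient.mkₐ k (I i)).toLinearMap)
                  (Ideal.Quotient.mkₐ_surjective k _)
          _ = r * Module.finrank k A := by simp
      refine lt_of_le_of_lt h2 ?_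
      rw [add_comm, Real.rpow_add hd', Real.rpow_one]
      exact mul_lt_mul_of_pos_right hε hd'
  · intro r ε' ε h0 hlt
    have h1 : Tendsto (fun x : ℝ => x ^ (ε - ε')) atTop atTop :=
      tendsto_rpow_atTop (sub_pos.mpr hlt)
    have h2 : Tendsto (fun n : ℕ => (n : ℝ) ^ (ε - ε')) atTop atTop :=
      h1.comp tendsto_natCast_atTop_atTop
    obtain ⟨d₀, hd₀⟩ := eventually_atTop.1 (h2.eventually_gt_atTop (r : ℝ))
    refine ⟨d₀, ?_⟩
    intro A _ _ _ _ I hI hne hr hd
    have h3 := hd₀ _ hd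
    have hd1 : 0 < Module.finrank k A := Module.finrank_pos
    have hd' : (0 : ℝ) < Module.finrank k A := by exact_mod_cast hd1
    refine Pool.Agent.R836.Emb.lim_of_rate A
      (lt_of_le_of_lt (Pool.Agent.R566.CV.rate_union I hI hne) ?_)
    calc ∑ i, rate k (A ⧸ I i) ≤ ∑ _i : Fin r, (Module.finrank k A : ℝ) ^ (1 + ε') := by
          refine Finset.sum_le_sum fun i _ => (hr i).trans ?_
          refine Real.rpow_le_rpow (Nat.cast_nonneg _) ?_ (by linarith)
          exact_mod_cast LinearMap.finrank_le_finrank_of_surjective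
            (f := (Ideal.Quotient.mkₐ k (I i)).toLinearMap) (Ideal.Quotient.mkₐ_surjective k _)
      _ = r * (Module.finrank k A : ℝ) ^ (1 + ε') := by simp
      _ < (Module.finrank k A : ℝ) ^ (ε - ε') * (Module.finrank k A : ℝ) ^ (1 + ε') :=
          mul_lt_mul_of_pos_right h3 (Real.rpow_pos_of_pos hd' _)
      _ = (Module.finrank k A : ℝ) ^ (1 + ε) := by
          rw [← Real.rpow_add hd']
          congr 1
          ring
  · intro N l Φ R hfin hR hR1
    let S : Fin l → Finset (Fin N →₀ ℕ) := fun i => (hfin i).toFinset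
    have hS : ∀ i u, Φ i (monomial u 1) ≠ 0 → u ∈ S i := fun i u hu =>
      (hfin i).mem_toFinset.mpr hu
    have hS' : ∀ i, ∀ u ∈ S i, Φ i (monomial u 1) ≠ 0 := fun i u hu =>
      (hfin i).mem_toFinset.mp hu
    have hcard : ∑ i, (S i).card = R := by
      rw [← hR]
      exact Finset.sum_congr rfl fun i _ => (Set.ncard_eq_toFinset_card _ (hfin i)).symm
    have hA := Pool.Agent.R566.CV.finite_sys Φ S hS
    have hV := Pool.Agent.R566.CV.sum_vol_le Φ S hS hS'
    rw [hcard] at hV
    have hm := Pool.Agent.R566.CV.mdeg_sys Φ S hS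
    have hVeq : ∑ i, ∑ s ∈ S i, Pool.Agent.R566.CV.vol s =
        ∑ i, ∑ᶠ u ∈ terms (Φ i), ∏ j, (u j + 1) := by
      refine Finset.sum_congr rfl fun i _ => ?_
      exact (finsum_mem_eq_finite_toFinset_sum _ (hfin i)).symm
    have hnt : Nontrivial (Sys Φ) := by
      obtain ⟨i, -, hi⟩ : ∃ i ∈ Finset.univ, (S i).card ≠ 0 := by
        by_contra hcon
        push Not at hcon
        have := Finset.sum_eq_zero hcon
        omega
      obtain ⟨u, hu⟩ := Finset.card_ne_zero.mp hi
      rw [Ideal.Quotient.nontrivial_iff, Ne, Ideal.eq_top_iff_one, Ideal.mem_iInf]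
      intro h
      have h1 := h i (monomial u 1)
      rw [one_mul] at h1
      exact hS' i u hu h1
    have htot : ∀ n : ℕ, Module.finrank k (Sys Φ) ^ n + defect k (Pow k (Sys Φ) n) ≤
        (∑ i, ∑ s ∈ S i, Pool.Agent.R566.CV.vol s) ^ n := by
      intro n
      have h := hm n
      rwa [← fadd k (Pow k (Sys Φ) n), finrank_Pow'] at h
    have hrate : rate k (Sys Φ) ≤ 2 * (R : ℝ) ^ 2 * Module.finrank k (Sys Φ) := by
      have h1 : rate k (Sys Φ) ≤ ((∑ i, ∑ s ∈ S i, Pool.Agent.R566.CV.vol s : ℕ) : ℝ) := by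
        have h2 := rate_lower (k := k) (Sys Φ) 1
        rw [pow_one, pow_one] at h2
        refine h2.trans ?_
        have h3 := htot 1
        rw [pow_one, pow_one] at h3
        exact_mod_cast h3
      refine h1.trans ?_
      exact_mod_cast hV
    refine ⟨hA, hnt, ⟨_, hVeq, hV, htot⟩, hrate, fun ε hε => ?_⟩
    refine Pool.Agent.R836.Emb.lim_of_rate (Sys Φ) (lt_of_le_of_lt hrate ?_)
    have hd : 0 < Module.finrank k (Sys Φ) := Module.finrank_pos
    have hd' : (0 : ℝ) < Module.finrank k (Sys Φ) := by exact_mod_cast hd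
    rw [add_comm, Real.rpow_add hd', Real.rpow_one]
    exact mul_lt_mul_of_pos_right hε hd'

end Pool.Agent.Results.MP_44217d_ag.Unions
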